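import Pool.Agent.W2helper66.DT.Stretch
import Pool.Agent.W2helper66.DT.Del

/-!
# The worst-case dilation of plane geometric graphs is at most 1.6046

Definitions of plane geometric graphs, of their stretch factor, of the plane dilation of a finite
point set and of `δ*`, and the bound `δ* ≤ 1.6046`.
-/

set_option autoImplicit false

open scoped ENNReal

namespace Pool.Agent.Results.MP_8fe08c_co.DilationUpper

open Pool.Agent.H962 (Plane walkLength edgeGraph IsDelaunay)

/-- `G` is a plane geometric graph on the finite point set `P`: its edges join points of `P`, no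
edge contains a further point of `P`, and two different edges meet at most in a common endpoint. -/
structure IsPlaneGraph (P : Finset Plane) (G : SimpleGraph Plane) : Prop where
  endpoints : ∀ a b, G.Adj a b → a ∈ P ∧ b ∈ P
  no_point : ∀ a b, G.Adj a b → ∀ p ∈ P, p ∈ segment ℝ a b → p = a ∨ p = b
  no_crossing : ∀ a b c d, G.Adj a b → G.Adj c d → s(a, b) ≠ s(c, d) →
    ∀ x ∈ segment ℝ a b, x ∈ segment ℝ c d → (x = a ∨ x = b) ∧ (x = c ∨ x = d)

/-- the length of a shortest path, `∞` if there is no path -/
noncomputable def pathDist (G : SimpleGraph Plane) (u v : Plane) : ℝ≥0∞ :=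
  ⨅ w : G.Walk u v, ENNReal.ofReal (walkLength w)

/-- the stretch factor of `G` on `P` -/
noncomputable def stretch (P : Finset Plane) (G : SimpleGraph Plane) : ℝ≥0∞ :=
  ⨆ u ∈ P, ⨆ v ∈ P, ⨆ _ : u ≠ v, pathDist G u v / ENNReal.ofReal (dist u v)

/-- the plane dilation of `P` -/
noncomputable def planeDilation (P : Finset Plane) : ℝ≥0∞ :=
  ⨅ G : SimpleGraph Plane, ⨅ _ : IsPlaneGraph P G, stretch P G

/-- the worst-case dilation `δ*` -/
noncomputable def deltaStar : ℝ≥0∞ := ⨆ P : Finset Plane, planeDilation P

theorem pair_mem {K : Geometry.SimplicialComplex ℝ Plane}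
    {a b : Plane} (h : (edgeGraph K).Adj a b) : ({a, b} : Finset Plane) ∈ K.faces := by
  obtain ⟨_, s, hs, ha, hb⟩ := h
  refine K.down_closed hs ?_ (by simp)
  intro x hx
  simp only [Finset.mem_insert, Finset.mem_singleton] at hx
  rcases hx with rfl | rfl <;> assumption

theorem segment_eq (a b : Plane) :
    segment ℝ a b = convexHull ℝ (({a, b} : Finset Plane) : Set Plane) := by
  rw [Finset.coe_insert, Finset.coe_singleton, convexHull_pair]

theorem isPlaneGraph_edgeGraph {P : Finset Plane} {K : Geometry.SimplicialComplex ℝ Plane}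
    (hK : IsDelaunay P K) : IsPlaneGraph P (edgeGraph K) where
  endpoints := by
    rintro a b ⟨_, s, hs, ha, hb⟩
    exact ⟨Pool.Agent.H962.face_subset hK hs ha, Pool.Agent.H962.face_subset hK hs hb⟩
  no_point := by
    intro a b hab p hp hps
    rw [segment_eq] at hps
    have := Pool.Agent.H962.mem_of_conv hK (pair_mem hab) hp hps
    simpa using this
  no_crossing := by
    classical
    intro a b c d hab hcd hne x hx1 hx2
    rw [segment_eq] at hx1 hx2
    have hI := K.inter_subset_convexHull (pair_mem hab) (pair_mem hcd)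
      ⟨hx1, hx2⟩
    have hsub : ((({a, b} : Finset Plane) : Set Plane) ∩
        (({c, d} : Finset Plane) : Set Plane)).Subsingleton := by
      rintro y ⟨hy1, hy2⟩ z ⟨hz1, hz2⟩
      by_contra hyz
      apply hne
      simp only [Finset.coe_insert, Finset.coe_singleton, Set.mem_insert_iff,
        Set.mem_singleton_iff] at hy1 hy2 hz1 hz2
      have e1 : s(a, b) = s(y, z) := by
        rcases hy1 with rfl | rfl <;> rcases hz1 with rfl | rfl
        · exact absurd rfl hyz
        · rfl
        · exact Sym2.eq_swap
        · exact absurd rfl hyz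
      have e2 : s(c, d) = s(y, z) := by
        rcases hy2 with rfl | rfl <;> rcases hz2 with rfl | rfl
        · exact absurd rfl hyz
        · rfl
        · exact Sym2.eq_swap
        · exact absurd rfl hyz
      rw [e1, e2]
    rw [hsub.convex.convexHull_eq] at hI
    simpa using hI

/-- a bound for all walks bounds the stretch factor -/
theorem stretch_le {P : Finset Plane} {G : SimpleGraph Plane} {t : ℝ}
    (h : ∀ u ∈ P, ∀ v ∈ P, ∃ w : G.Walk u v, walkLength w ≤ t * dist u v) (ht : 0 ≤ t) :
    stretch P G ≤ ENNReal.ofReal t := by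
  unfold stretch
  refine iSup₂_le (fun u hu => iSup₂_le (fun v hv => iSup_le (fun huv => ?_)))
  obtain ⟨w, hw⟩ := h u hu v hv
  have hd : 0 < dist u v := dist_pos.2 huv
  apply ENNReal.div_le_of_le_mul
  rw [← ENNReal.ofReal_mul ht]
  exact (iInf_le _ w).trans (ENNReal.ofReal_le_ofReal hw)

/-- Every finite point set has a Delaunay triangulation, every Delaunay triangulation is a plane
geometric graph with stretch factor at most `1.6046`; so `δ* ≤ 1.6046`. -/
theorem result :
    (∀ P : Finset Plane, (∃ K : Geometry.SimplicialComplex ℝ Plane, IsDelaunay P K) ∧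
      ∀ K : Geometry.SimplicialComplex ℝ Plane, IsDelaunay P K →
        IsPlaneGraph P (edgeGraph K) ∧ stretch P (edgeGraph K) ≤ ENNReal.ofReal (16046 / 10000)) ∧
    (∀ P : Finset Plane, planeDilation P ≤ ENNReal.ofReal (16046 / 10000)) ∧
    deltaStar ≤ ENNReal.ofReal (16046 / 10000) := by
  have h1 : ∀ P : Finset Plane, ∀ K : Geometry.SimplicialComplex ℝ Plane, IsDelaunay P K →
      stretch P (edgeGraph K) ≤ ENNReal.ofReal (16046 / 10000) := fun P K hK =>
    stretch_le (fun u hu v hv =>
      Pool.Agent.W2helper66.DT.spanner P K hK u v hu hv) (by norm_num)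
  have h2 : ∀ P : Finset Plane, planeDilation P ≤ ENNReal.ofReal (16046 / 10000) := by
    intro P
    obtain ⟨K, hK⟩ := Pool.Agent.W2helper66.DT.exists_isDelaunay P
    exact (iInf₂_le (edgeGraph K) (isPlaneGraph_edgeGraph hK)).trans (h1 P K hK)
  exact ⟨fun P => ⟨Pool.Agent.W2helper66.DT.exists_isDelaunay P, fun K hK =>
    ⟨isPlaneGraph_edgeGraph hK, h1 P K hK⟩⟩, h2, iSup_le h2⟩

end Pool.Agent.Results.MP_8fe08c_co.DilationUpper
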